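import Mathlib

/-!
Winnable Latvian hat games and the fractional hat guessing number: for every `k ≥ 2` the complete
digraph on `k` vertices with a directed ear of length three attached is a counterexample.
-/

namespace Pool.Agent.Results.MP_22519f_co.EarOnComplete

open Finset

section Defs

variable {V : Type}

/-- The hat game `(D, g, h)` is winnable.  Here `D v u` means that `v` sees `u`; the adversary
chooses a colour `c u` in `Fin (h u)` at every vertex `u`; the vertex `v` names the set `G v c` of
`g v` colours, which depends only on the colours that `v` sees; and for every colouring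
some vertex `v` names `c v`. -/
def Winnable (D : V → V → Prop) (g h : V → ℕ) : Prop :=
  ∃ G : (v : V) → ((u : V) → Fin (h u)) → Finset (Fin (h v)),
    (∀ v c, (G v c).card = g v) ∧
    (∀ v c c', (∀ u, D v u → c u = c' u) → G v c = G v c') ∧
    ∀ c, ∃ v, c v ∈ G v c

/-- The fractional hat guessing number: the supremum of `m / s` over all winnable games
`(D, ⋆s, ⋆m)` with `0 < s < m`. -/
noncomputable def muHat (D : V → V → Prop) : EReal :=
  sSup {x | ∃ s m : ℕ, 0 < s ∧ s < m ∧ Winnable D (fun _ => s) (fun _ => m) ∧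
    x = (((m : ℝ) / (s : ℝ) : ℝ) : EReal)}

/-- The digraph `D` is strongly connected. -/
def StronglyConnected (D : V → V → Prop) : Prop := ∀ x y, Relation.ReflTransGen D x y

/-- In the subdigraph of `D` induced on `U`, the set `S` is redundant:
`N⁺(S) ⊆ ⋂_{u ∈ N⁻(S)} N⁺(u)`. -/
def Redundant (D : V → V → Prop) (U S : Set V) : Prop :=
  S ⊆ U ∧ ∀ w ∈ U, (∃ x ∈ S, D x w) → ∀ u ∈ U, (∃ y ∈ S, D u y) → D u w

/-- Every strongly connected component of the subdigraph induced on `U` is a complete digraph. -/
def ComponentsComplete (D : V → V → Prop) (U : Set V) : Prop :=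
  ∀ x y, x ∈ U → y ∈ U → x ≠ y →
    Relation.ReflTransGen (fun a b => a ∈ U ∧ b ∈ U ∧ D a b) x y →
    Relation.ReflTransGen (fun a b => a ∈ U ∧ b ∈ U ∧ D a b) y x → D x y

/-- The subdigraph induced on `U` is trivial: after deleting redundant sets one after the other,
every strongly connected component is a complete digraph. -/
inductive TrivialOn (D : V → V → Prop) : Set V → Prop
  | base (U : Set V) (h : ComponentsComplete D U) : TrivialOn D U
  | del (U S : Set V) (h : Redundant D U S) (h' : TrivialOn D (U \ S)) : TrivialOn D U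

end Defs

/-- The complete digraph on `Fin k` (`k ≥ 2`) together with the ear `0 → b₁ → b₂ → 0`, where
`b₁ = inr 0` and `b₂ = inr 1`. -/
def D (n : ℕ) : Fin (n + 2) ⊕ Fin 2 → Fin (n + 2) ⊕ Fin 2 → Prop
  | Sum.inl i, Sum.inl j => i ≠ j
  | Sum.inl i, Sum.inr j => i = 0 ∧ j = 0
  | Sum.inr i, Sum.inr j => i = 0 ∧ j = 1
  | Sum.inr i, Sum.inl j => i = 1 ∧ j = 0

theorem D_loopless (n : ℕ) : ∀ v, ¬ D n v v := by
  rintro (i | i) h
  · exact h rfl
  · obtain ⟨h1, h2⟩ := h
    rw [h1] at h2
    exact absurd h2 (by decide)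

theorem D_strong (n : ℕ) : StronglyConnected (D n) := by
  have h1 : ∀ i j : Fin (n + 2), Relation.ReflTransGen (D n) (Sum.inl i) (Sum.inl j) := by
    intro i j
    by_cases h : i = j
    · rw [h]
    · exact Relation.ReflTransGen.single h
  have h2 : Relation.ReflTransGen (D n) (Sum.inl 0) (Sum.inr 0) :=
    Relation.ReflTransGen.single ⟨rfl, rfl⟩
  have h3 : Relation.ReflTransGen (D n) (Sum.inr 0) (Sum.inr 1) :=
    Relation.ReflTransGen.single ⟨rfl, rfl⟩
  have h4 : Relation.ReflTransGen (D n) (Sum.inr 1) (Sum.inl 0) :=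
    Relation.ReflTransGen.single ⟨rfl, rfl⟩
  have hto : ∀ x, Relation.ReflTransGen (D n) x (Sum.inl 0) := by
    rintro (i | i)
    · exact h1 i 0
    · fin_cases i
      · exact h3.trans h4
      · exact h4
  have hfrom : ∀ y, Relation.ReflTransGen (D n) (Sum.inl 0) y := by
    rintro (i | i)
    · exact h1 0 i
    · fin_cases i
      · exact h2
      · exact h2.trans h3
  intro x y
  exact (hto x).trans (hfrom y)

theorem not_redundant (n : ℕ) (S : Set (Fin (n + 2) ⊕ Fin 2)) (h : Redundant (D n) Set.univ S) :
    S = ∅ := by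
  obtain ⟨-, h⟩ := h
  have key : ∀ x y w, x ∈ S → y ∈ S → D n x w → D n w y → False := by
    intro x y w hx hy h1 h2
    exact D_loopless n w (h w (Set.mem_univ _) ⟨x, hx, h1⟩ w (Set.mem_univ _) ⟨y, hy, h2⟩)
  rw [Set.eq_empty_iff_forall_notMem]
  rintro (i | i) hi
  · obtain ⟨j, hj⟩ := exists_ne i
    exact key (Sum.inl i) (Sum.inl i) (Sum.inl j) hi hi hj.symm hj
  · fin_cases i
    · have := h (Sum.inr 1) (Set.mem_univ _) ⟨_, hi, ⟨rfl, rfl⟩⟩ (Sum.inl 0) (Set.mem_univ _)
        ⟨_, hi, ⟨rfl, rfl⟩⟩
      exact absurd this.2 (by decide)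
    · have := h (Sum.inl 0) (Set.mem_univ _) ⟨_, hi, ⟨rfl, rfl⟩⟩ (Sum.inr 0) (Set.mem_univ _)
        ⟨_, hi, ⟨rfl, rfl⟩⟩
      exact absurd this.1 (by decide)

theorem nontrivial (n : ℕ) : ¬ TrivialOn (D n) Set.univ := by
  have key : ∀ U, TrivialOn (D n) U → U ≠ Set.univ := by
    intro U hU
    induction hU with
    | base U h =>
      rintro rfl
      have hmono : ∀ x y, Relation.ReflTransGen (D n) x y →
          Relation.ReflTransGen (fun a b => a ∈ Set.univ ∧ b ∈ Set.univ ∧ D n a b) x y := by
        intro x y hxy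
        exact Relation.ReflTransGen.mono
          (fun a b hab => ⟨Set.mem_univ a, Set.mem_univ b, hab⟩) x y hxy
      have := h (Sum.inr 0) (Sum.inl 0) (Set.mem_univ _) (Set.mem_univ _) (by simp)
        (hmono _ _ (D_strong n _ _)) (hmono _ _ (D_strong n _ _))
      exact absurd this.1 (by decide)
    | del U S h h' ih =>
      rintro rfl
      rw [not_redundant n S h] at ih
      simp at ih
  intro h
  exact key _ h rfl

/-- The numbers of colours: `k` on the complete digraph and `k + 1` on the ear. -/
def hh (n : ℕ) : Fin (n + 2) ⊕ Fin 2 → ℕ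
  | Sum.inl _ => n + 2
  | Sum.inr _ => n + 3

/-- The rules of the vertices. -/
def rule (n : ℕ) : (v : Fin (n + 2) ⊕ Fin 2) → ((u : Fin (n + 2) ⊕ Fin 2) → Fin (hh n u)) →
    Finset (Fin (hh n v))
  | Sum.inl i, c =>
    {(i - ∑ j ∈ univ.erase i, (show Fin (n + 2) from c (Sum.inl j)) : Fin (n + 2))}
  | Sum.inr _, _ => {(0 : Fin (n + 3))}

theorem latvian (n : ℕ) : Winnable (D n) (fun _ => 1) (hh n) := by
  refine ⟨rule n, ?_, ?_, ?_⟩
  · rintro (i | i) c
    · exact Finset.card_singleton _
    · exact Finset.card_singleton _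
  · rintro (i | i) c c' h
    · have e : ∑ j ∈ univ.erase i, (show Fin (n + 2) from c (Sum.inl j)) =
          ∑ j ∈ univ.erase i, (show Fin (n + 2) from c' (Sum.inl j)) := by
        apply Finset.sum_congr rfl
        intro j hj
        have hj' : j ≠ i := (Finset.mem_erase.1 hj).1
        exact h (Sum.inl j) hj'.symm
      show ({(i - ∑ j ∈ univ.erase i, (show Fin (n + 2) from c (Sum.inl j)) : Fin (n + 2))} :
        Finset (Fin (n + 2))) = {(i - ∑ j ∈ univ.erase i,
          (show Fin (n + 2) from c' (Sum.inl j)) : Fin (n + 2))}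
      rw [e]
    · rfl
  · intro c
    let i : Fin (n + 2) := ∑ j, (show Fin (n + 2) from c (Sum.inl j))
    refine ⟨Sum.inl i, ?_⟩
    show (show Fin (n + 2) from c (Sum.inl i)) ∈
      ({(i - ∑ j ∈ univ.erase i, (show Fin (n + 2) from c (Sum.inl j)) : Fin (n + 2))} :
        Finset (Fin (n + 2)))
    rw [Finset.mem_singleton]
    have := Finset.add_sum_erase univ (fun j => (show Fin (n + 2) from c (Sum.inl j)))
      (Finset.mem_univ i)
    simp only at this
    rw [eq_sub_iff_add_eq]
    exact this

/-! ### The upper bound -/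

/-- The number of colourings for which a vertex of a complete digraph guesses correctly. -/
theorem count_one {k m s : ℕ} (i : Fin k) (F : (Fin k → Fin m) → Finset (Fin m))
    (hF : ∀ κ, (F κ).card = s) (hind : ∀ κ t, F (Function.update κ i t) = F κ) :
    m * (univ.filter (fun κ : Fin k → Fin m => κ i ∈ F κ)).card = s * m ^ k := by
  classical
  have hA : ((univ : Finset ((Fin k → Fin m) × Fin m)).filter (fun p => p.2 ∈ F p.1)).card =
      s * m ^ k := by
    have : ((univ : Finset ((Fin k → Fin m) × Fin m)).filter (fun p => p.2 ∈ F p.1)).card =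
        ∑ κ : Fin k → Fin m, (F κ).card := by
      rw [Finset.card_filter, Fintype.sum_prod_type]
      apply Finset.sum_congr rfl
      intro κ _
      rw [← Finset.card_filter]
      congr 1
      ext t
      simp
    rw [this]
    simp [hF, mul_comm]
  have hB : ((univ : Finset ((Fin k → Fin m) × Fin m)).filter (fun p => p.1 i ∈ F p.1)).card =
      m * (univ.filter (fun κ : Fin k → Fin m => κ i ∈ F κ)).card := by
    have : (univ : Finset ((Fin k → Fin m) × Fin m)).filter (fun p => p.1 i ∈ F p.1) =
        (univ.filter (fun κ : Fin k → Fin m => κ i ∈ F κ)) ×ˢ (univ : Finset (Fin m)) := by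
      ext p
      simp
    rw [this, Finset.card_product]
    simp [mul_comm]
  rw [← hB, ← hA]
  symm
  apply Finset.card_nbij' (fun p => (Function.update p.1 i p.2, p.1 i))
    (fun p => (Function.update p.1 i p.2, p.1 i))
  · intro p hp
    simp only [coe_filter, mem_univ, true_and, Set.mem_ofPred_eq] at hp ⊢
    rw [Function.update_self, hind]
    exact hp
  · intro p hp
    simp only [coe_filter, mem_univ, true_and, Set.mem_ofPred_eq] at hp ⊢
    rw [hind]
    exact hp
  · intro p _
    simp
  · intro p _
    simp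

/-- The union bound on the complete digraph. -/
theorem union_bound {k m s : ℕ} (hm : k * s < m)
    (F : Fin k → (Fin k → Fin m) → Finset (Fin m))
    (hF : ∀ i κ, (F i κ).card = s) (hind : ∀ i κ t, F i (Function.update κ i t) = F i κ) :
    ∃ κ : Fin k → Fin m, ∀ i, κ i ∉ F i κ := by
  classical
  by_contra hcon
  push Not at hcon
  have h1 : (univ : Finset (Fin k → Fin m)) ⊆
      univ.biUnion (fun i : Fin k => univ.filter (fun κ : Fin k → Fin m => κ i ∈ F i κ)) := by
    intro κ _
    obtain ⟨i, hi⟩ := hcon κ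
    simp only [mem_biUnion, mem_univ, mem_filter, true_and]
    exact ⟨i, hi⟩
  have h2 := (Finset.card_le_card h1).trans Finset.card_biUnion_le
  have h3 : m * m ^ k ≤ k * (s * m ^ k) := by
    calc m * m ^ k = m * (univ : Finset (Fin k → Fin m)).card := by simp
      _ ≤ m * ∑ i : Fin k, (univ.filter (fun κ : Fin k → Fin m => κ i ∈ F i κ)).card :=
          Nat.mul_le_mul_left _ h2
      _ = ∑ i : Fin k, m * (univ.filter (fun κ : Fin k → Fin m => κ i ∈ F i κ)).card := by
          rw [Finset.mul_sum]
      _ = ∑ i : Fin k, s * m ^ k := by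
          apply Finset.sum_congr rfl
          intro i _
          exact count_one i (F i) (hF i) (hind i)
      _ = k * (s * m ^ k) := by simp
  have hmpos : 0 < m ^ k := pow_pos (by omega) k
  rw [← mul_assoc] at h3
  have := Nat.le_of_mul_le_mul_right h3 hmpos
  omega

/-- There is a colour of `b₁` that is wrong for many colours of `b₂`. -/
theorem good_colour {m s : ℕ} (hm : 2 * s < m) (F : Fin m → Finset (Fin m))
    (hF : ∀ y, (F y).card = s) :
    ∃ x : Fin m, s < (univ.filter (fun y => x ∉ F y)).card := by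
  classical
  by_contra hcon
  push Not at hcon
  have h1 : ∑ x : Fin m, (univ.filter (fun y => x ∉ F y)).card ≤ m * s := by
    calc ∑ x : Fin m, (univ.filter (fun y => x ∉ F y)).card ≤ ∑ _x : Fin m, s :=
          Finset.sum_le_sum (fun x _ => hcon x)
      _ = m * s := by simp
  have h2 : ∑ x : Fin m, (univ.filter (fun y => x ∉ F y)).card = m * (m - s) := by
    calc ∑ x : Fin m, (univ.filter (fun y => x ∉ F y)).card
        = ∑ y : Fin m, (univ.filter (fun x => x ∉ F y)).card := by
          simp only [Finset.card_filter]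
          rw [Finset.sum_comm]
      _ = ∑ _y : Fin m, (m - s) := by
          apply Finset.sum_congr rfl
          intro y _
          have : univ.filter (fun x => x ∉ F y) = (F y)ᶜ := by
            ext x; simp
          rw [this, Finset.card_compl, hF, Fintype.card_fin]
      _ = m * (m - s) := by simp
  rw [h2] at h1
  have := Nat.le_of_mul_le_mul_left h1 (by omega)
  omega

theorem polish (n s m : ℕ) (h : Winnable (D n) (fun _ => s) (fun _ => m)) :
    m ≤ (n + 2) * s := by
  classical
  by_contra hcon
  push Not at hcon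
  have hm0 : 0 < m := by omega
  have h2s : 2 * s < m := by nlinarith
  obtain ⟨G, hcard, hdep, hwin⟩ := h
  have z : Fin m := ⟨0, hm0⟩
  -- the colouring with given values
  let cc : (Fin (n + 2) → Fin m) → Fin m → Fin m → (Fin (n + 2) ⊕ Fin 2) → Fin m :=
    fun κ x y => Sum.elim κ ![x, y]
  obtain ⟨x, hx⟩ := good_colour h2s (fun y => G (Sum.inr 0) (cc (fun _ => z) z y))
    (fun y => hcard _ _)
  obtain ⟨κ, hκ⟩ := union_bound hcon (fun i κ => G (Sum.inl i) (cc κ x z))
    (fun i κ => hcard _ _) (by
      intro i κ t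
      apply hdep
      rintro (j | j) hj
      · have hne : j ≠ i := Ne.symm hj
        show Function.update κ i t j = κ j
        rw [Function.update_of_ne hne]
      · rfl)
  -- a colour for `b₂`
  obtain ⟨y, hy1, hy2⟩ : ∃ y : Fin m, x ∉ G (Sum.inr 0) (cc (fun _ => z) z y) ∧
      y ∉ G (Sum.inr 1) (cc κ x z) := by
    by_contra hno
    push Not at hno
    have hsub : univ.filter (fun y => x ∉ G (Sum.inr 0) (cc (fun _ => z) z y)) ⊆
        G (Sum.inr 1) (cc κ x z) := by
      intro y hy
      rw [Finset.mem_filter] at hy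
      exact hno y hy.2
    have h3 := Finset.card_le_card hsub
    have h4 : (G (Sum.inr 1) (cc κ x z)).card = s := hcard _ _
    omega
  obtain ⟨v, hv⟩ := hwin (cc κ x y)
  rcases v with i | i
  · apply hκ i
    have e : G (Sum.inl i) (cc κ x y) = G (Sum.inl i) (cc κ x z) := by
      apply hdep
      rintro (j | j) hj
      · rfl
      · obtain ⟨-, hj0⟩ := hj
        subst hj0
        rfl
    rw [e] at hv
    exact hv
  · fin_cases i
    · apply hy1
      have e : G (Sum.inr 0) (cc κ x y) = G (Sum.inr 0) (cc (fun _ => z) z y) := by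
        apply hdep
        rintro (j | j) hj
        · exact absurd hj.1 (by decide)
        · obtain ⟨-, hj1⟩ := hj
          subst hj1
          rfl
      rw [← e]
      exact hv
    · apply hy2
      have e : G (Sum.inr 1) (cc κ x y) = G (Sum.inr 1) (cc κ x z) := by
        apply hdep
        rintro (j | j) hj
        · rfl
        · exact absurd hj.1 (by decide)
      rw [← e]
      exact hv

/-- For every `k ≥ 2` there are a finite loopless strongly connected nontrivial digraph `D` and a
function `h ≥ k`, not constant `k`, such that the Latvian game `(D, h)` is winnable but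
the fractional hat guessing number of `D` is at most `k`. -/
theorem result (k : ℕ) (hk : 2 ≤ k) :
    ∃ (V : Type) (_ : Fintype V) (D : V → V → Prop) (h : V → ℕ),
      (∀ v, ¬ D v v) ∧ StronglyConnected D ∧ ¬ TrivialOn D Set.univ ∧
      (∀ v, k ≤ h v) ∧ (∃ v, h v ≠ k) ∧
      Winnable D (fun _ => 1) h ∧ muHat D ≤ (k : ℝ) := by
  obtain ⟨n, rfl⟩ : ∃ n, k = n + 2 := ⟨k - 2, by omega⟩
  refine ⟨Fin (n + 2) ⊕ Fin 2, inferInstance, D n, hh n, D_loopless n, D_strong n, nontrivial n,
    ?_, ⟨Sum.inr 0, by simp [hh]⟩, latvian n, ?_⟩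
  · rintro (i | i)
    · exact le_refl _
    · exact Nat.le_succ _
  · apply sSup_le
    rintro x ⟨s, m, hs, hsm, hw, rfl⟩
    have h1 := polish n s m hw
    rw [EReal.coe_le_coe_iff]
    rw [div_le_iff₀ (by exact_mod_cast hs)]
    exact_mod_cast h1

end Pool.Agent.Results.MP_22519f_co.EarOnComplete
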